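import Mathlib
import Pool.Agent.Y808.LB.StmM

set_option autoImplicit false

/-!
# LB-RES: primitive elements for separably generated extensions
-/

open Polynomial IsLocalRing

noncomputable section

namespace Pool.Agent.Y657.LB

open Pool.Agent.Y808.LB

section clr

variable {κ L : Type} [Field κ] [Field L] [Algebra κ L] {e : ℕ} (t : Fin e → L)

/-- the evaluation of polynomials at `t` -/
abbrev ev : MvPolynomial (Fin e) κ →+* L :=
  (MvPolynomial.aeval t : MvPolynomial (Fin e) κ →ₐ[κ] L).toRingHom

lemma mem_adj (p : MvPolynomial (Fin e) κ) :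
    ev t p ∈ IntermediateField.adjoin κ (Set.range t) := by
  rw [IntermediateField.mem_adjoin_range_iff]
  refine ⟨p, 1, ?_⟩
  rw [map_one, div_one]
  rfl

/-- the evaluation with values in the field generated by `t` -/
def evK : MvPolynomial (Fin e) κ →+* IntermediateField.adjoin κ (Set.range t) :=
  (ev t).codRestrict (IntermediateField.adjoin κ (Set.range t)) (mem_adj t)

lemma map_evK (P : (MvPolynomial (Fin e) κ)[X]) :
    (P.map (evK t)).map (algebraMap (IntermediateField.adjoin κ (Set.range t)) L) =
      P.map (ev t) := by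
  rw [Polynomial.map_map]
  rfl

/-- clearing denominators -/
lemma clr (P1 : (IntermediateField.adjoin κ (Set.range t))[X]) :
    ∃ (Q : MvPolynomial (Fin e) κ) (P : (MvPolynomial (Fin e) κ)[X]), Q ≠ 0 ∧
      P.map (ev t) = C (ev t Q) *
        P1.map (algebraMap (IntermediateField.adjoin κ (Set.range t)) L) := by
  induction P1 using Polynomial.induction_on' with
  | add p q hp hq =>
    obtain ⟨Q1, P1, h1, e1⟩ := hp
    obtain ⟨Q2, P2, h2, e2⟩ := hq
    refine ⟨Q1 * Q2, C Q2 * P1 + C Q1 * P2, mul_ne_zero h1 h2, ?_⟩
    rw [Polynomial.map_add, Polynomial.map_mul, Polynomial.map_mul, Polynomial.map_C,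
      Polynomial.map_C, e1, e2, map_mul, Polynomial.map_add, C_mul]
    ring
  | monomial n a =>
    obtain ⟨r, s, h⟩ := (IntermediateField.mem_adjoin_range_iff (F := κ) t (a : L)).mp a.2
    by_cases hs : ev t s = 0
    · refine ⟨1, 0, one_ne_zero, ?_⟩
      have h0 : (a : L) = 0 := by
        rw [h]
        change _ / ev t s = 0
        rw [hs, div_zero]
      have ha : a = 0 := Subtype.ext h0
      simp [ha]
    · refine ⟨s, monomial n r, ?_, ?_⟩
      · rintro rfl
        exact hs (map_zero _)
      · rw [Polynomial.map_monomial, Polynomial.map_monomial, C_mul_monomial]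
        congr 1
        change _ = ev t s * (a : L)
        rw [h]
        change ev t r = ev t s * (ev t r / ev t s)
        field_simp

end clr

theorem t_RES : S_RES := by
  intro κ L _ _ _ hfin hsepg
  obtain ⟨s, hs, hsep⟩ := hsepg
  set t : Fin s.card → L := fun i => (s.equivFin.symm i : L) with ht
  have hrange : Set.range t = (s : Set L) := by
    ext x
    constructor
    · rintro ⟨i, rfl⟩
      exact (s.equivFin.symm i).2
    · intro hx
      exact ⟨s.equivFin ⟨x, hx⟩, by simp [ht]⟩
  have hind : AlgebraicIndependent κ t := hs.1.comp _ s.equivFin.symm.injective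
  have hinj : Function.Injective (ev (κ := κ) t) := hind
  rw [← hrange] at hsep
  have := hsep
  have : Algebra.EssFiniteType (IntermediateField.adjoin κ (Set.range t)) L :=
    Algebra.EssFiniteType.of_comp κ (IntermediateField.adjoin κ (Set.range t)) L
  have : Algebra.FormallyUnramified (IntermediateField.adjoin κ (Set.range t)) L :=
    (Algebra.FormallyUnramified.iff_isSeparable _ L).mpr hsep
  have : Module.Finite (IntermediateField.adjoin κ (Set.range t)) L :=
    Algebra.FormallyUnramified.finite_of_free _ L
  obtain ⟨θ, hθ⟩ := Field.exists_primitive_element (IntermediateField.adjoin κ (Set.range t)) L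
  set μ := minpoly (IntermediateField.adjoin κ (Set.range t)) θ with hμ
  have hθi : IsIntegral (IntermediateField.adjoin κ (Set.range t)) θ :=
    Algebra.IsIntegral.isIntegral θ
  have hμsep : μ.Separable := Algebra.IsSeparable.isSeparable _ θ
  obtain ⟨q, g, hq, hg⟩ := clr t μ
  have hevq : ev t q ≠ 0 := fun h => hq (hinj (by rw [h, map_zero]))
  have hμ0 : eval θ (μ.map (algebraMap (IntermediateField.adjoin κ (Set.range t)) L)) = 0 := by
    rw [eval_map_algebraMap]
    exact minpoly.aeval _ θ
  refine ⟨s.card, t, θ, g, ?_⟩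
  constructor
  · intro P hP
    exact hinj (by rw [map_zero]; exact hP)
  · change g.eval₂ (ev t) θ = 0
    rw [← eval_map, hg, eval_mul, hμ0, mul_zero]
  · change (derivative g).eval₂ (ev t) θ ≠ 0
    rw [← eval_map, ← derivative_map, hg, derivative_C_mul, eval_mul, eval_C, derivative_map,
      eval_map_algebraMap]
    exact mul_ne_zero hevq (hμsep.aeval_derivative_ne_zero (minpoly.aeval _ θ))
  · intro P hP
    change P.eval₂ (ev t) θ = 0 at hP
    have hd : μ ∣ P.map (evK t) := by
      apply minpoly.dvd
      rw [← eval_map_algebraMap, map_evK, eval_map]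
      exact hP
    obtain ⟨H1, hH1⟩ := hd
    obtain ⟨Q, H, hQ, hH⟩ := clr t (C (evK t q)⁻¹ * H1)
    refine ⟨Q, H, hQ, ?_⟩
    apply Polynomial.map_injective (ev t) hinj
    have e1 : P.map (ev t) = μ.map (algebraMap (IntermediateField.adjoin κ (Set.range t)) L) *
        H1.map (algebraMap (IntermediateField.adjoin κ (Set.range t)) L) := by
      rw [← map_evK, hH1, Polynomial.map_mul]
    have e2 : C (ev t q) * (C (evK t q)⁻¹ * H1).map
        (algebraMap (IntermediateField.adjoin κ (Set.range t)) L) =
        H1.map (algebraMap (IntermediateField.adjoin κ (Set.range t)) L) := by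
      rw [Polynomial.map_mul, Polynomial.map_C, map_inv₀]
      have : algebraMap (IntermediateField.adjoin κ (Set.range t)) L (evK t q) = ev t q := rfl
      rw [this, ← mul_assoc, ← C_mul, mul_inv_cancel₀ hevq, C_1, one_mul]
    rw [Polynomial.map_mul, Polynomial.map_mul, Polynomial.map_C, hg, hH, e1]
    calc C (ev t Q) * (μ.map (algebraMap (IntermediateField.adjoin κ (Set.range t)) L) *
        H1.map (algebraMap (IntermediateField.adjoin κ (Set.range t)) L))
        = C (ev t Q) * (μ.map (algebraMap (IntermediateField.adjoin κ (Set.range t)) L) *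
          (C (ev t q) * (C (evK t q)⁻¹ * H1).map
            (algebraMap (IntermediateField.adjoin κ (Set.range t)) L))) := by rw [e2]
      _ = _ := by ring
  · intro y
    have hy : y ∈ IntermediateField.adjoin (IntermediateField.adjoin κ (Set.range t)) {θ} := by
      rw [hθ]; trivial
    have hy' : y ∈ (IntermediateField.adjoin
        (IntermediateField.adjoin κ (Set.range t)) {θ}).toSubalgebra := hy
    rw [IntermediateField.adjoin_simple_toSubalgebra_of_isAlgebraic hθi.isAlgebraic,
      Algebra.adjoin_singleton_eq_range_aeval] at hy'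
    obtain ⟨P1, hP1⟩ := hy'
    obtain ⟨Q, P, hQ, hP⟩ := clr t P1
    refine ⟨Q, P, hQ, ?_⟩
    change ev t Q * y = P.eval₂ (ev t) θ
    rw [← eval_map, hP, eval_mul, eval_C, eval_map_algebraMap]
    congr 1
    exact hP1.symm

end Pool.Agent.Y657.LB
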